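import Pool.Agent.Y816.PD.UniJ
import Pool.Agent.TH212.EH.A0

set_option autoImplicit false

/-!
# Almost primes with restricted digits in `(n ^ 2, n ^ 2 + 1 + φ(n)]`

For every large `n` and every admissible `H` the `m` for which all `m + h`, `h ∈ H`, lie in
`(n ^ 2, n ^ 2 + 1 + φ(n)]`, and whose `i`-th digit in base `b` belongs to an arbitrary set `A i` for all `i < K`,
are considered; `K` is the integer part of `log_b ((φ(n) + 2) / 3)`.
-/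

namespace Pool.Agent.Results.MP_36c81c_nt.RestrictedDigits

open Finset Filter
open Pool.Agent.Y816.PD (NA DC AT PT)

/-- The integers of `(n ^ 2, n ^ 2 + 1 + φ(n)]`. -/
def Int (n : ℕ) : Set ℕ := {m | n ^ 2 < m ∧ m ≤ n ^ 2 + 1 + Nat.totient n}

lemma cube : ∀ᶠ n : ℕ in atTop, n ^ 2 ≤ (Nat.totient n + 2) ^ 3 := by
  have hXr : Tendsto (fun X : ℕ => (X : ℝ)) atTop atTop := tendsto_natCast_atTop_atTop
  have hlog := Real.tendsto_log_atTop.comp hXr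
  have hlit := ((isLittleO_log_rpow_atTop (show (0 : ℝ) < 1 / 3 by norm_num)).bound
    (show (0 : ℝ) < 1 / 3 by norm_num))
  filter_upwards [eventually_ge_atTop 3, hlog.eventually_ge_atTop 2, hXr.eventually hlit] with n hn hl2 hlt
  simp only [Function.comp] at hl2
  have hn3 : (3 : ℝ) ≤ n := by exact_mod_cast hn
  have hn0 : (0 : ℝ) < n := by linarith
  rw [Real.norm_of_nonneg (by linarith), Real.norm_of_nonneg (by positivity)] at hlt
  have hφ := Pool.Agent.TH212.EH.phi_low n (by omega)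
  have h4 : 1 + 2 * Real.log n ≤ (n : ℝ) ^ (1 / 3 : ℝ) := by linarith
  have h5 : (0 : ℝ) ≤ Nat.totient n := Nat.cast_nonneg _
  have h6 : (n : ℝ) ≤ (n : ℝ) ^ (1 / 3 : ℝ) * Nat.totient n :=
    hφ.trans (mul_le_mul_of_nonneg_right h4 h5)
  have h7 : ((n : ℝ) ^ (1 / 3 : ℝ)) ^ 3 = n := by
    rw [← Real.rpow_natCast, ← Real.rpow_mul hn0.le]
    norm_num
  have h8 : (n : ℝ) ^ 3 ≤ n * (Nat.totient n : ℝ) ^ 3 := by
    calc (n : ℝ) ^ 3 ≤ ((n : ℝ) ^ (1 / 3 : ℝ) * Nat.totient n) ^ 3 := pow_le_pow_left₀ hn0.le h6 3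
      _ = _ := by rw [mul_pow, h7]
  have h9 : (n : ℝ) ^ 2 ≤ (Nat.totient n : ℝ) ^ 3 := by
    have : (n : ℝ) * (n : ℝ) ^ 2 ≤ n * (Nat.totient n : ℝ) ^ 3 := by
      calc (n : ℝ) * (n : ℝ) ^ 2 = (n : ℝ) ^ 3 := by ring
        _ ≤ _ := h8
    exact le_of_mul_le_mul_left this hn0
  have h10 : n ^ 2 ≤ (Nat.totient n) ^ 3 := by exact_mod_cast h9
  exact h10.trans (Nat.pow_le_pow_left (by omega) 3)

/-- **Almost prime tuples with restricted digits in `(n ^ 2, n ^ 2 + 1 + φ(n)]`.** -/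
theorem result (H : Finset ℕ) (hH : ∀ p : ℕ, p.Prime → ∃ m : ℕ, ∀ h ∈ H, ¬ p ∣ m + h) (k : ℕ)
    (hk : H.card = k) (hk1 : 1 ≤ k) :
    ∃ c : ℝ, 0 < c ∧ ∃ r₀ : ℕ, 2 ≤ r₀ ∧ ∀ r : ℕ, r₀ ≤ r → ∀ b : ℕ, 2 ≤ b → ∃ κ C : ℝ, 0 < κ ∧ 0 < C ∧
      ∀ᶠ n : ℕ in atTop, ∀ K : ℕ, K = Nat.log b ((Nat.totient n + 2) / 3) →
        ∀ A : ℕ → Finset ℕ, (∀ i < K, A i ⊆ range b) → (b : ℝ) ^ K ≤ Real.exp (c * K) * NA K A →
        ((∃ d ∈ A 0, ∀ h ∈ H, (d + h).Coprime b) →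
          κ * NA K A / (K : ℝ) ^ k ≤ DC b K A (AT H (Int n) r (b ^ K))) ∧
        (DC b K A (PT H (Int n)) : ℝ) ≤ C * NA K A / (K : ℝ) ^ k := by
  apply Pool.Agent.Y816.PD.uni_fam atTop Int (fun n => n ^ 2) (fun n => Nat.totient n + 2)
    (fun n => Nat.totient n + 2) 3 1 _ _ cube _ _ H hH k hk hk1
  · refine tendsto_atTop.2 fun s => ?_
    filter_upwards [cube, eventually_ge_atTop (s ^ 3 + 1)] with n hn hns
    by_contra hcon
    push Not at hcon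
    have h1 : (Nat.totient n + 2) ^ 3 ≤ s ^ 3 := Nat.pow_le_pow_left hcon.le 3
    have h2 : n ≤ n ^ 2 := Nat.le_self_pow (by norm_num) n
    omega
  · exact Eventually.of_forall fun n => ⟨le_rfl, by omega⟩
  · refine Eventually.of_forall fun n m h1 h2 => ⟨h1, ?_⟩
    omega
  · refine Eventually.of_forall fun n m hm => ⟨hm.1, ?_⟩
    have := hm.2
    omega

end Pool.Agent.Results.MP_36c81c_nt.RestrictedDigits
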