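import Pool.Agent.Y677.KU.Sqrt
import Pool.Agent.TH212.EH.A0

set_option autoImplicit false

/-!
# Numbers with at most three prime factors in `(n ^ 2, n ^ 2 + 1 + φ(n)]`, and narrow progressions

The intervals of the question contain the right number (in order of magnitude) of integers with at
most three prime factors, all of them larger than the fifth root of the integer; they contain
`l`-term arithmetic progressions of such integers with difference at most `(log n) ^ B`, and the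
same is true of every dense subset of the integers without small prime factors.
-/

namespace Pool.Agent.Results.MP_36c81c_nt.ThreePrimeFactors

open Finset Filter
open Pool.Agent.TH977.PW (N)
open Pool.Agent.Y677.RSZ (InProg Outside)

/-- All prime factors of `m` are larger than `m ^ (1 / s)`. -/
def R (s : ℕ) : Set ℕ := {m | ∀ p : ℕ, p.Prime → p ∣ m → (m : ℝ) ^ (1 / (s : ℝ)) < (p : ℝ)}

/-- The `m` with at most three prime factors, all of them larger than `m ^ (1 / 5)`. -/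
def P : Set ℕ := {m | m ∈ R 5 ∧ m.primeFactorsList.length ≤ 3}

/-- the conditions on `n` that are used -/
lemma ev : ∀ᶠ n : ℕ in atTop, 3 ≤ n ∧ (((n ^ 2 : ℕ) : ℝ)) ^ (12 / 25 : ℝ) ≤ ((1 + Nat.totient n : ℕ) : ℝ) ∧
    1 + Nat.totient n ≤ n ^ 2 ∧ Real.log ((n ^ 2 : ℕ) : ℝ) = 2 * Real.log n ∧ 2 ≤ Real.log n := by
  have hXr : Tendsto (fun X : ℕ => (X : ℝ)) atTop atTop := tendsto_natCast_atTop_atTop
  have hlog := Real.tendsto_log_atTop.comp hXr
  have hlit := ((isLittleO_log_rpow_atTop (show (0 : ℝ) < 1 / 25 by norm_num)).bound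
    (show (0 : ℝ) < 1 / 3 by norm_num))
  filter_upwards [eventually_ge_atTop 3, hlog.eventually_ge_atTop 2, hXr.eventually hlit] with n hn hl2 hlt
  simp only [Function.comp] at hl2
  have hn3 : (3 : ℝ) ≤ n := by exact_mod_cast hn
  have hn0 : (0 : ℝ) < n := by linarith
  rw [Real.norm_of_nonneg (by linarith), Real.norm_of_nonneg (by positivity)] at hlt
  have hφ := Pool.Agent.TH212.EH.phi_low n (by omega)
  have hφn : Nat.totient n ≤ n := Nat.totient_le n
  refine ⟨hn, ?_, ?_, ?_, hl2⟩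
  · have h1 : (((n ^ 2 : ℕ) : ℝ)) ^ (12 / 25 : ℝ) = (n : ℝ) ^ (24 / 25 : ℝ) := by
      push_cast
      rw [← Real.rpow_natCast, ← Real.rpow_mul hn0.le]
      norm_num
    rw [h1]
    push_cast
    have h2 : (n : ℝ) ^ (24 / 25 : ℝ) * (n : ℝ) ^ (1 / 25 : ℝ) = n := by
      rw [← Real.rpow_add hn0]
      norm_num
    have h3 : 0 < (n : ℝ) ^ (1 / 25 : ℝ) := by positivity
    have h4 : 1 + 2 * Real.log n ≤ (n : ℝ) ^ (1 / 25 : ℝ) := by linarith
    have h5 : (0 : ℝ) ≤ Nat.totient n := Nat.cast_nonneg _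
    have h6 : (n : ℝ) ^ (24 / 25 : ℝ) * (n : ℝ) ^ (1 / 25 : ℝ) ≤ Nat.totient n * (n : ℝ) ^ (1 / 25 : ℝ) := by
      rw [h2]
      refine hφ.trans ?_
      rw [mul_comm]
      exact mul_le_mul_of_nonneg_left h4 h5
    have h7 := le_of_mul_le_mul_right h6 h3
    linarith
  · nlinarith
  · push_cast
    rw [Real.log_pow]
    norm_num

/-- **Numbers with at most three prime factors in `(n ^ 2, n ^ 2 + 1 + φ(n)]`, in narrow progressions.** -/
theorem result :
    (∃ κ : ℝ, 0 < κ ∧ ∀ᶠ n : ℕ in atTop,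
      κ * Nat.totient n / Real.log n ≤ N P (n ^ 2) (n ^ 2 + (1 + Nat.totient n))) ∧
    (∀ l : ℕ, ∃ B : ℕ, ∀ᶠ n : ℕ in atTop, ∃ u d : ℕ, 1 ≤ d ∧ (d : ℝ) ≤ Real.log n ^ B ∧
      ∀ i < l, u + i * d ∈ P ∧ n ^ 2 < u + i * d ∧ u + i * d ≤ n ^ 2 + (1 + Nat.totient n)) ∧
    ∀ s : ℕ, 1 ≤ s → ∀ l : ℕ, 2 ≤ l → ∀ ε : ℝ, 0 < ε → ∃ B : ℕ, ∀ᶠ n : ℕ in atTop,
      ∀ A : Set ℕ, A ⊆ R s →
        (N (Outside A l (Real.log n ^ B) (n ^ 2) (n ^ 2 + (1 + Nat.totient n)))
          (n ^ 2) (n ^ 2 + (1 + Nat.totient n)) : ℝ) ≤ ε * Nat.totient n / Real.log n := by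
  have hsq : Tendsto (fun n : ℕ => n ^ 2) atTop atTop := tendsto_pow_atTop (by norm_num)
  refine ⟨?_, fun l => ?_, fun s hs l hl ε hε => ?_⟩
  · obtain ⟨κ, hκ, h⟩ := Pool.Agent.Y677.KU.one_lower 3 5 (12 / 25) (by norm_num) (by norm_num)
      (by norm_num) (by norm_num) (by norm_num)
    refine ⟨κ / 2, by positivity, ?_⟩
    filter_upwards [hsq.eventually h, ev] with n hn ⟨h3, h4, h5, h6, h7⟩
    have h8 := hn (1 + Nat.totient n) h4 h5
    rw [h6] at h8
    refine le_trans ?_ (h8.trans (Nat.cast_le.2 ?_))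
    · rw [div_le_div_iff₀ (by linarith) (by linarith)]
      push_cast
      have : 0 ≤ κ * Real.log n := by positivity
      nlinarith
    · exact Pool.Agent.TH977.PW.N_mono _ _ _ _ fun n _ _ hn => ⟨hn.1, hn.2⟩
  · obtain ⟨B, h⟩ := Pool.Agent.Y677.KU.one_exists 3 5 (by norm_num) (12 / 25) (by norm_num) (by norm_num)
      (by norm_num) (by norm_num) (by norm_num) l
    refine ⟨2 * B, ?_⟩
    filter_upwards [hsq.eventually h, ev] with n hn ⟨h3, h4, h5, h6, h7⟩
    obtain ⟨u, d, h8, h9, h10⟩ := hn (1 + Nat.totient n) h4 h5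
    refine ⟨u, d, h8, h9.trans ?_, fun i hi => ?_⟩
    · rw [h6, pow_mul]
      apply pow_le_pow_left₀ (by linarith)
      nlinarith
    · obtain ⟨h11, h12⟩ := h10 i hi
      exact ⟨⟨h11.1, h11.2⟩, h12⟩
  · obtain ⟨B, h⟩ := Pool.Agent.Y677.KU.one_hered s hs (12 / 25) (by norm_num) l hl ε hε
    refine ⟨2 * B, ?_⟩
    filter_upwards [hsq.eventually h, ev] with n hn ⟨h3, h4, h5, h6, h7⟩ A hA
    have h8 := hn (1 + Nat.totient n) h4 h5 A (fun m hm => hA hm)
    rw [h6] at h8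
    refine le_trans (Nat.cast_le.2 ?_) (h8.trans ?_)
    · refine Pool.Agent.TH977.PW.N_mono _ _ _ _ fun m _ _ hm => ?_
      refine Pool.Agent.Y677.KU.Outside_mono A l _ _ ?_ _ _ _ _ le_rfl le_rfl hm
      rw [pow_mul]
      apply pow_le_pow_left₀ (by linarith)
      nlinarith
    · rw [div_le_div_iff₀ (by linarith) (by linarith)]
      push_cast
      have h9 : (1 : ℝ) ≤ Nat.totient n := by exact_mod_cast Nat.totient_pos.2 (by omega)
      have : 0 ≤ ε * Real.log n := by positivity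
      nlinarith

end Pool.Agent.Results.MP_36c81c_nt.ThreePrimeFactors
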